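import Pool.Agent.H30.VX.Targets

/-!
# MP_d32443_co, large `k`: row L2 (board vex_modules)

A core of type II and a disjoint lower regular pair give a run.
-/

set_option autoImplicit false

namespace Pool.Agent.H94.VX

open Finset Pool.Agent.H48.CE Pool.Agent.H30.VR Pool.Agent.H30.VX

/-- two typical vertices -/
theorem two_typical {V : Type} {G : SimpleGraph V} {A B : Finset V} {d : ℝ} {r t : ℕ}
    (hLP : LP G d r t A B) (ht : 2 ≤ t) (hr : 20 ≤ r) :
    ∃ a0 ∈ A, ∃ a1 ∈ A, a0 ≠ a1 ∧ d * B.card ≤ (nb G B a0).card ∧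
      d * B.card ≤ (nb G B a1).card := by
  classical
  have hrt : 20 * t ≤ r * t := Nat.mul_le_mul_right t hr
  have h1 := hLP.lr.typ (by omega : 1 ≤ t) (Subset.refl B) (by rw [hLP.cb]; omega)
  set S0 := A.filter (fun a => ((nb G B a).card : ℝ) < d * B.card) with hS0
  have h1' : S0.card < t := by
    refine lt_of_le_of_lt (le_of_eq ?_) h1
    apply congrArg
    apply Finset.ext
    intro x
    simp only [hS0, mem_filter]
  have h2 : A.card = S0.card + (A \ S0).card := by
    have h := card_sdiff_add_card_eq_card (show S0 ⊆ A from filter_subset _ _)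
    omega
  have h3 : 1 < (A \ S0).card := by
    have := hLP.ca
    omega
  obtain ⟨a0, ha0, a1, ha1, hne⟩ := one_lt_card.1 h3
  rw [mem_sdiff] at ha0 ha1
  refine ⟨a0, ha0.1, a1, ha1.1, hne, ?_, ?_⟩
  · by_contra hcon
    push Not at hcon
    exact ha0.2 (by rw [hS0, mem_filter]; exact ⟨ha0.1, hcon⟩)
  · by_contra hcon
    push Not at hcon
    exact ha1.2 (by rw [hS0, mem_filter]; exact ⟨ha1.1, hcon⟩)

/-- the two ends in a near-complete set -/
theorem near_end {V : Type} {G : SimpleGraph V} {W W' : Finset V} {μ : ℕ} {y z : V}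
    (hNC : NC G μ W) (hy : y ∈ W) (hW' : ∀ v, v ∈ W' ↔ v ∈ W ∧ v ≠ y ∧ v ≠ z)
    (hc : W.card = W'.card + 2) : W'.card ≤ (nb G W' y).card + μ := by
  classical
  have h1 := hNC y hy
  have h2 : (nb G W y).card ≤ (nb G W' y).card + 1 := by
    have h3 : nb G W y ⊆ insert z (nb G W' y) := by
      intro v hv
      rw [mem_nb] at hv
      rw [mem_insert, mem_nb, hW']
      by_cases hvz : v = z
      · exact Or.inl hvz
      · refine Or.inr ⟨⟨hv.1, ?_, hvz⟩, hv.2⟩
        rintro rfl
        exact G.loopless.irrefl _ hv.2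
    exact (card_le_card h3).trans (card_insert_le _ _)
  omega

theorem pf_L2 (hMNG : T_MNG) (hMN2 : T_MN2) (hCMB : T_CMB) (hFEW : T_FEW) (hFLX : T_FLX)
    (hNCP : T_NCP) : T_L2 := by
  intro V _ G W A B d r t k μ hCon hNC hLP hdis hd hd1 ht hdr hdt h6 hW hk
  classical
  -- `r` is at least 20
  have hr : 20 ≤ r := by
    have h1 : (20 : ℝ) ≤ r := by
      have : d * r ≤ 1 * (r : ℝ) := mul_le_mul_of_nonneg_right hd1 (Nat.cast_nonneg _)
      linarith
    exact_mod_cast h1
  have hrt : 20 * t ≤ r * t := Nat.mul_le_mul_right t hr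
  obtain ⟨a0, ha0, a1, ha1, hne, ht0, ht1⟩ := two_typical hLP ht hr
  -- the shortest system
  have hinj : Function.Injective (![a0, a1] : Fin 2 → V) := by
    intro i j hij
    fin_cases i <;> fin_cases j
    · rfl
    · exact absurd hij hne
    · exact absurd hij.symm hne
    · rfl
  obtain ⟨Q, hQ⟩ := exists_mps (hMNG G 1 (![a0, a1] : Fin 2 → V) W hCon (by simp) hinj
    (by simp; omega))
  have hPS := hQ.1
  have hfew := hFEW G (![a0, a1] : Fin 2 → V) W Q A B d t r hQ hLP.dis hLP.lr hd hd1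
    (by rw [hLP.ca, hLP.cb]) (by rw [hLP.ca]; omega) (by rw [hLP.ca])
    (by
      rw [Fintype.card_fin]
      push_cast
      linarith)
    (by
      rw [Fintype.card_fin]
      push_cast
      linarith)
  -- the set of the vertices of the system
  set X : Finset V := univ.filter (fun v => ∃ i, v ∈ Q i) with hX
  have hmX : ∀ v, v ∈ X ↔ ∃ i, v ∈ Q i := by
    intro v
    simp [hX]
  have hAX : (A.filter (fun v => v ∈ X)).card ≤ 3 * t := by
    have h1 : (A.filter (fun v => v ∈ X)).card ≤ (A.filter (fun v => ∃ i, v ∈ Q i)).card := by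
      apply card_le_card
      intro v hv
      rw [mem_filter] at hv ⊢
      exact ⟨hv.1, (hmX v).1 hv.2⟩
    have h2 := hfew.1
    refine le_trans h1 ?_
    refine le_trans (le_of_lt (lt_of_le_of_lt (le_of_eq ?_) h2)) (by omega)
    apply congrArg
    apply Finset.ext
    intro x
    simp only [mem_filter]
  have hBX : (B.filter (fun v => v ∈ X)).card ≤ 3 * t := by
    have h1 : (B.filter (fun v => v ∈ X)).card ≤ (B.filter (fun v => ∃ i, v ∈ Q i)).card := by
      apply card_le_card
      intro v hv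
      rw [mem_filter] at hv ⊢
      exact ⟨hv.1, (hmX v).1 hv.2⟩
    have h2 := hfew.2
    refine le_trans h1 ?_
    refine le_trans (le_of_lt (lt_of_le_of_lt (le_of_eq ?_) h2)) (by omega)
    apply congrArg
    apply Finset.ext
    intro x
    simp only [mem_filter]
  -- the ends of the two paths
  obtain ⟨y0, hy0W, hy0⟩ := hPS.last 0
  obtain ⟨y1, hy1W, hy1⟩ := hPS.last 1
  have h01 : (0 : Fin 2) ≠ 1 := by decide
  have hy0Q : y0 ∈ Q 0 := List.mem_of_getLast? hy0
  have hy1Q : y1 ∈ Q 1 := List.mem_of_getLast? hy1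
  have hy01 : y0 ≠ y1 := by
    rintro rfl
    exact hPS.disj 0 1 h01 _ hy0Q hy1Q
  -- the smaller near-complete set
  obtain ⟨W', hW'⟩ : ∃ W' : Finset V, ∀ v, v ∈ W' ↔ v ∈ W ∧ v ≠ y0 ∧ v ≠ y1 :=
    ⟨(W.erase y0).erase y1, fun v => by simp only [mem_erase]; tauto⟩
  have hcW : W.card = W'.card + 2 := by
    have h1 : W' = (W.erase y0).erase y1 := by
      apply Finset.ext
      intro v
      rw [hW']
      simp only [mem_erase]
      tauto
    have h2 := card_erase_of_mem hy0W
    have h3 := card_erase_of_mem (show y1 ∈ W.erase y0 from mem_erase.2 ⟨hy01.symm, hy1W⟩)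
    rw [h1, h3, h2]
    omega
  have hsub : W' ⊆ W := fun v hv => ((hW' v).1 hv).1
  have hNC' : NC G μ W' := hNC.sub hsub
  have hn0 : W'.card ≤ (nb G W' y0).card + μ := near_end hNC hy0W hW' hcW
  have hn1 : W'.card ≤ (nb G W' y1).card + μ :=
    near_end (z := y0) hNC hy1W (fun v => by rw [hW']; tauto) hcW
  have hF : ∀ g : ℕ, 1 ≤ g → g ≤ W'.card →
      ∃ F : List V, F.length = g ∧ Pt G y0 F y1 ∧ ∀ v ∈ F, v ∈ W' :=
    hNCP G W' μ y0 y1 hNC' (fun h => ((hW' y0).1 h).2.1 rfl) (fun h => ((hW' y1).1 h).2.2 rfl)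
      hy01 hn0 hn1 (by omega)
  -- cycles of all the lengths
  have hcyc : ∀ s g : ℕ, s + 20 * t ≤ r * t → 1 ≤ g → g ≤ W'.card →
      Cy G ((Q 0).length + (Q 1).length + 7 + 2 * s + g) := by
    intro s g hs hg1 hg2
    obtain ⟨l, hl1, hl2, hl3⟩ := hFLX G A B X d t a0 a1 hLP.dis (by rw [hLP.ca, hLP.cb]) hd ht
      hLP.lr
      (by
        rw [hLP.ca]
        push_cast
        have h1 := mul_le_mul_of_nonneg_right hdr (Nat.cast_nonneg (α := ℝ) t)
        linarith [mul_assoc d (r : ℝ) (t : ℝ)])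
      hd1
      (by
        refine le_trans (le_of_eq ?_) hAX
        apply congrArg
        apply Finset.ext
        intro x
        simp only [mem_filter])
      (by
        refine le_trans (le_of_eq ?_) hBX
        apply congrArg
        apply Finset.ext
        intro x
        simp only [mem_filter])
      ha0 ha1 hne ht0 ht1 s (by rw [hLP.ca]; exact hs)
    obtain ⟨L, hL1, hL2, hL3⟩ := hCMB G (![a0, a1] : Fin 2 → V) W Q hPS 0 1 l y0 y1 h01 hl2
      (fun v hv i' hvi => (hl3 v hv).2 ((hmX v).2 ⟨i', hvi⟩)) hy0 hy1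
    obtain ⟨F, hF1, hF2, hF3⟩ := hF g hg1 hg2
    have hLW : ∀ v ∈ L, v ∉ F := by
      intro v hv hvF
      have hvW : v ∈ W := hsub (hF3 v hvF)
      have hnd := hL2.1
      rcases hL3 v hv with h | h | h
      · have h1 := hMN2 G _ W Q hQ 0 v h hvW
        rw [hy0, Option.some.injEq] at h1
        subst h1
        rw [List.nodup_cons] at hnd
        exact hnd.1 (List.mem_append_left _ hv)
      · have h1 := hMN2 G _ W Q hQ 1 v h hvW
        rw [hy1, Option.some.injEq] at h1
        subst h1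
        have h2 := (List.nodup_cons.1 hnd).2
        rw [List.nodup_append] at h2
        exact h2.2.2 _ hv _ (by simp) rfl
      · have h1 := hdis v hvW
        rcases (hl3 v h).1 with h2 | h2
        · exact h1.1 h2
        · exact h1.2 h2
    have hC := cy_of_two hL2 hF2 hLW (by omega)
    have heq : L.length + F.length + 2 = (Q 0).length + (Q 1).length + 7 + 2 * s + g := by
      omega
    rw [heq] at hC
    exact hC
  -- the interval
  refine hasRun_of_interval (x := (Q 0).length + (Q 1).length + 8) ?_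
  intro N hN1 hN2
  obtain ⟨v, hv⟩ : ∃ v, N = (Q 0).length + (Q 1).length + 7 + v := ⟨N - ((Q 0).length +
    (Q 1).length + 7), by omega⟩
  by_cases hcase : (v - 1) / 2 + 20 * t ≤ r * t
  · have h1 := hcyc ((v - 1) / 2) (v - 2 * ((v - 1) / 2)) hcase (by omega) (by omega)
    have h2 : (Q 0).length + (Q 1).length + 7 + 2 * ((v - 1) / 2) + (v - 2 * ((v - 1) / 2)) = N := by
      omega
    rw [h2] at h1
    exact h1
  · have h1 := hcyc (r * t - 20 * t) (v - 2 * (r * t - 20 * t)) (by omega) (by omega) (by omega)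
    have h2 : (Q 0).length + (Q 1).length + 7 + 2 * (r * t - 20 * t) +
        (v - 2 * (r * t - 20 * t)) = N := by
      omega
    rw [h2] at h1
    exact h1

end Pool.Agent.H94.VX
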